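import Pool.Agent.Work.MP_4a9266_lc.Club

/-! Stationary rainbow sets of two-bounded colourings depend only on the quotient by the
nonstationary ideal. -/

set_option autoImplicit false

namespace Pool.Agent.Results.MP_4a9266_lc.RainbowModNS

open Cardinal Order

/-- `κ` is a regular uncountable cardinal (for instance `ℵ₂`), `S₀` a set of ordinals below `κ`.
Every two-bounded colouring of the pairs of ordinals below `κ` has a stationary rainbow set
contained in `S₀`, if and only if every symmetric family of sets `A a c`, whose members at two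
different pairs with a common point have nonstationary intersection, has a stationary `S ⊆ S₀`
such that `S ∩ A a c` is nonstationary for all `a ≠ c` in `S`. -/
theorem result (κ : Cardinal.{0}) (hκ : κ.IsRegular) (h0 : ℵ₀ < κ) (S₀ : Set κ.ord.ToType) :
    (∀ (C : Type) (f : κ.ord.ToType → κ.ord.ToType → C),
      (∀ c : C, {p : κ.ord.ToType × κ.ord.ToType | p.1 < p.2 ∧ f p.1 p.2 = c}.encard ≤ 2) →
      ∃ H ⊆ S₀, IsStationary H ∧ ∀ a ∈ H, ∀ b ∈ H, ∀ c ∈ H, ∀ d ∈ H,
        a < b → c < d → f a b = f c d → a = c ∧ b = d) ↔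
    (∀ A : κ.ord.ToType → κ.ord.ToType → Set κ.ord.ToType,
      (∀ a c, A a c = A c a) →
      (∀ a c d, a ≠ c → a ≠ d → c ≠ d → ¬ IsStationary (A a c ∩ A a d)) →
      ∃ S ⊆ S₀, IsStationary S ∧ ∀ a ∈ S, ∀ c ∈ S, a ≠ c → ¬ IsStationary (S ∩ A a c)) := by
  have hcof : cof κ.ord.ToType = κ := by
    rw [Ordinal.cof_toType, hκ.cof_ord]
  have hlim : Order.IsSuccLimit κ.ord := isSuccLimit_ord hκ.aleph0_le
  have hne : Nonempty κ.ord.ToType := by
    rw [Ordinal.nonempty_toType_iff]
    exact hlim.ne_bot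
  have hmax : NoMaxOrder κ.ord.ToType := Cardinal.noMaxOrder hκ.aleph0_le
  refine Pool.Agent.Work.MP_4a9266_lc.equiv ?_ ?_ S₀
  · rw [hcof]
    exact h0
  · intro a
    rw [hcof]
    obtain ⟨b, hb⟩ := exists_gt a
    refine (mk_le_mk_of_subset (fun x hx => ?_ : Set.Iic a ⊆ Set.Iio b)).trans_lt ?_
    · exact lt_of_le_of_lt hx hb
    · exact mk_Iio_toType_ord_lt b

end Pool.Agent.Results.MP_4a9266_lc.RainbowModNS
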